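import Mathlib
import Pool.Agent.Helper545x.ShiftCore
import Pool.Agent.Y827.GS.Qc

/-! Completely additive functions at the shifted primes `p - h`, for every `h ≥ 1`: at least
`5 / 18` of all the values of a finite abelian group are taken, each by at least `x ^ (1 - η)`
primes up to `x`. The case `h = 1` concerns `p - 1`. -/

set_option autoImplicit false

open Classical in
theorem Pool.Agent.Results.MP_0c1432_nt.FewExceptionalValues.result :
    ∀ h : ℕ, 1 ≤ h → ∀ (H : Type) [AddCommGroup H] [Fintype H] (F : ℕ → H),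
      (∀ m n : ℕ, 1 ≤ m → 1 ≤ n → m.Coprime h → n.Coprime h → F (m * n) = F m + F n) →
      AddSubgroup.closure (F '' {n : ℕ | 1 ≤ n ∧ n.Coprime h}) = ⊤ →
      ∀ η : ℝ, 0 < η → ∀ᶠ x : ℝ in Filter.atTop,
        (5 / 18 : ℝ) * (Fintype.card H : ℝ) ≤
          (((Finset.univ : Finset H).filter (fun v : H => x ^ (1 - η) ≤
            (((Finset.Icc 1 ⌊x⌋₊).filter
              (fun p : ℕ => p.Prime ∧ h < p ∧ F (p - h) = v)).card : ℝ))).card : ℝ) := by
  intro h hh H _ _ F hF hgen η hη
  have hA : Pool.Agent.Helper545x.Addi h F := hF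
  exact Pool.Agent.Helper545x.shift_main Pool.Agent.Y827.GS.core_quantG h hh H F hA
    hgen η hη
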